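import Mathlib


namespace Pool.Agent.H.MP_b58525_ag

variable {B K : Type*} [CommRing B] [IsDomain B] [Field K] [Algebra B K] [IsFractionRing B K]

/-- a derivation from B to K -/
structure Der (B K : Type*) [CommRing B] [Field K] [Algebra B K] where
  D : B →+ K
  mul : ∀ a b, D (a * b) = algebraMap B K a * D b + algebraMap B K b * D a

namespace Der
variable (d : Der B K)

omit [IsDomain B] [IsFractionRing B K] in
lemma one : d.D 1 = 0 := by
  have := d.mul 1 1
  simp only [mul_one, map_one, one_mul] at this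
  linear_combination -this

/-- elements whose derivative lies in B -/
def sub : Subring B where
  carrier := {b | ∃ c, algebraMap B K c = d.D b}
  mul_mem' := by
    rintro a b ⟨c, hc⟩ ⟨e, he⟩
    exact ⟨a * e + b * c, by rw [d.mul, map_add, map_mul, map_mul, hc, he]⟩
  one_mem' := ⟨0, by rw [d.one, map_zero]⟩
  add_mem' := by
    rintro a b ⟨c, hc⟩ ⟨e, he⟩
    exact ⟨c + e, by rw [map_add, map_add, hc, he]⟩
  zero_mem' := ⟨0, by rw [map_zero, map_zero]⟩
  neg_mem' := by
    rintro a ⟨c, hc⟩
    exact ⟨-c, by rw [map_neg, map_neg, hc]⟩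

omit [IsDomain B] [IsFractionRing B K] in
lemma mem_sub {b : B} : b ∈ d.sub ↔ ∃ c, algebraMap B K c = d.D b := Iff.rfl

omit [IsDomain B] [IsFractionRing B K] in
lemma sq_mem (h2 : (2 : K) = 0) (b : B) : b * b ∈ d.sub :=
  ⟨0, by rw [d.mul, map_zero]; linear_combination (-(algebraMap B K b * d.D b)) * h2⟩

/-- the derivative as an element of B -/
noncomputable def dd (r : d.sub) : B := r.2.choose

omit [IsDomain B] [IsFractionRing B K] in
lemma dd_spec (r : d.sub) : algebraMap B K (d.dd r) = d.D r := r.2.choose_spec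

omit [IsDomain B] in
lemma dd_eq (r : d.sub) (c : B) (h : algebraMap B K c = d.D r) : d.dd r = c :=
  IsFractionRing.injective B K (by rw [dd_spec, h])

/-- the map r to r + D r ε -/
noncomputable def δ : d.sub →+* TrivSqZeroExt B B where
  toFun r := (r.1, d.dd r)
  map_one' := by
    ext
    · rfl
    · exact d.dd_eq _ _ (by simp [d.one])
  map_mul' a b := by
    ext
    · rfl
    · refine d.dd_eq _ _ ?_
      simp [TrivSqZeroExt.snd_mul, d.mul, dd_spec]
      ring
  map_zero' := by
    ext
    · rfl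
    · exact d.dd_eq _ _ (by simp)
  map_add' a b := by
    ext
    · rfl
    · refine d.dd_eq _ _ ?_
      simp [dd_spec]

omit [IsDomain B] in
lemma δ_fst (r : d.sub) : (d.δ r).fst = r := rfl

omit [IsDomain B] in
lemma δ_snd (r : d.sub) : (d.δ r).snd = d.dd r := rfl

lemma noeth [IsNoetherianRing B] (hs : Function.Surjective d.D) : IsNoetherianRing d.sub := by
  have : Module.Finite B (TrivSqZeroExt B B) := inferInstanceAs (Module.Finite B (B × B))
  have : IsNoetherianRing (TrivSqZeroExt B B) := IsNoetherianRing.of_finite B _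
  rw [isNoetherianRing_iff_ideal_fg]
  intro I
  by_cases hI : I = ⊥
  · rw [hI]; exact Submodule.fg_bot
  obtain ⟨f, hfI, hf⟩ := Submodule.exists_mem_ne_zero_of_ne_bot hI
  have hf1 : (f : B) ≠ 0 := fun h => hf (Subtype.ext h)
  have hf2 : algebraMap B K f ≠ 0 := by simpa using hf1
  let ψ := (Ideal.Quotient.mk (Ideal.span {d.δ f})).comp d.δ
  have hsurj : Function.Surjective ψ := by
    intro z
    obtain ⟨z, rfl⟩ := Ideal.Quotient.mk_surjective z
    obtain ⟨c, hc⟩ := hs ((d.D z.fst - algebraMap B K z.snd) / algebraMap B K f)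
    have h1 : algebraMap B K (z.snd - c * d.dd f) = d.D (z.fst - f * c) := by
      rw [map_sub, map_sub, d.mul, hc, map_mul, dd_spec]
      field_simp
      ring
    refine ⟨⟨z.fst - f * c, _, h1⟩, ?_⟩
    refine Ideal.Quotient.eq.2 (Ideal.mem_span_singleton'.2 ⟨TrivSqZeroExt.inl (-c), ?_⟩)
    ext
    · simp [δ_fst]
      ring
    · simp [δ_fst, δ_snd, d.dd_eq ⟨z.fst - f * c, _, h1⟩ _ h1]
  have hker : RingHom.ker ψ = Ideal.span {f} := by
    ext r
    rw [RingHom.mem_ker, Ideal.mem_span_singleton']
    constructor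
    · intro h
      obtain ⟨u, hu⟩ := Ideal.mem_span_singleton'.1 (Ideal.Quotient.eq_zero_iff_mem.1 h)
      have e1 := congrArg TrivSqZeroExt.fst hu
      have e2 := congrArg TrivSqZeroExt.snd hu
      simp only [TrivSqZeroExt.fst_mul, δ_fst] at e1
      simp only [TrivSqZeroExt.snd_mul, δ_fst, δ_snd, smul_eq_mul, MulOpposite.smul_eq_mul_unop,
        MulOpposite.unop_op] at e2
      have e3 := congrArg (algebraMap B K) e2
      rw [map_add, map_mul, map_mul, dd_spec, dd_spec, ← e1, d.mul] at e3
      refine ⟨⟨u.fst, u.snd, ?_⟩, Subtype.ext e1⟩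
      apply mul_left_cancel₀ hf2
      linear_combination e3
    · rintro ⟨u, rfl⟩
      refine Ideal.Quotient.eq_zero_iff_mem.2 ?_
      rw [map_mul]
      exact Ideal.mul_mem_left _ _ (Ideal.subset_span rfl)
  have hfg : (I.map ψ).FG := IsNoetherian.noetherian _
  refine @Ideal.fg_of_fg_map_of_fg_inf_ker_of_surjective _ _ _ (Ideal.Quotient.commRing _) ψ I
    hfg ?_ hsurj
  rw [hker, inf_eq_right.2 ((Ideal.span_singleton_le_iff_mem _).2 hfI)]
  exact Submodule.fg_span_singleton f

omit [IsDomain B] [IsFractionRing B K] in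
lemma integral (h2 : (2 : K) = 0) : Algebra.IsIntegral d.sub B := by
  refine ⟨fun b => ?_⟩
  refine ⟨Polynomial.X ^ 2 - Polynomial.C ⟨b * b, d.sq_mem h2 b⟩,
    Polynomial.monic_X_pow_sub_C _ (by norm_num), ?_⟩
  simp [Algebra.algebraMap_ofSubsemiring_apply, pow_two]

lemma dim (h2 : (2 : K) = 0) : ringKrullDim d.sub = ringKrullDim B := by
  have := d.integral h2
  let e : PrimeSpectrum B ≃o PrimeSpectrum d.sub := by
    refine RelIso.ofSurjective (OrderEmbedding.ofMapLEIff
      (fun P : PrimeSpectrum B => PrimeSpectrum.comap (algebraMap d.sub B) P) ?_) ?_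
    · intro P Q
      constructor
      · intro h b hb
        have h1 : (⟨b * b, d.sq_mem h2 b⟩ : d.sub) ∈
            (PrimeSpectrum.comap (algebraMap d.sub B) P).asIdeal :=
          Ideal.mul_mem_left P.asIdeal b hb
        have h3 : b * b ∈ Q.asIdeal := h h1
        exact (Q.2.mem_or_mem h3).elim id id
      · intro h b hb
        exact h hb
    · intro p
      obtain ⟨Q, hQ, hQ'⟩ := Ideal.exists_ideal_over_prime_of_isIntegral_of_isDomain (S := B)
        p.asIdeal (by
          rw [(RingHom.injective_iff_ker_eq_bot _).1 Subtype.val_injective]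
          exact bot_le)
      exact ⟨⟨Q, hQ⟩, PrimeSpectrum.ext hQ'⟩
  exact (Order.krullDim_eq_of_orderIso e).symm

lemma assoc [UniqueFactorizationMonoid B] (h2 : (2 : K) = 0) (hs : Function.Surjective d.D)
    (p : Ideal d.sub) [hp : p.IsPrime] (h1 : p.height = 1) :
    ∃ x : FractionRing d.sub, IsIntegral d.sub x ∧
      ∀ r : d.sub, r ∈ p ↔ ∃ s : d.sub, algebraMap d.sub (FractionRing d.sub) s = r • x := by
  have := d.integral h2
  obtain ⟨P, hP, hP'⟩ := Ideal.exists_ideal_over_prime_of_isIntegral_of_isDomain (S := B)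
    p (by
      rw [(RingHom.injective_iff_ker_eq_bot _).1 Subtype.val_injective]
      exact bot_le)
  have hP0 : P ≠ ⊥ := by
    rintro rfl
    have : p = ⊥ := by
      rw [← hP', ← RingHom.ker_eq_comap_bot]
      exact (RingHom.injective_iff_ker_eq_bot _).1 Subtype.val_injective
    rw [this, Ideal.height_bot] at h1
    exact zero_ne_one h1
  obtain ⟨π, hπP, hπ⟩ := hP.exists_mem_prime_of_ne_bot hP0
  have hprime : (Ideal.span {π}).IsPrime := (Ideal.span_singleton_prime hπ.ne_zero).2 hπ
  let π2 : d.sub := ⟨π * π, d.sq_mem h2 π⟩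
  have hπ2 : π2 ≠ 0 := fun h => hπ.ne_zero (by
    have := congrArg Subtype.val h
    simpa [π2] using this)
  have hq : (Ideal.span {π}).comap (algebraMap d.sub B) = p := by
    have hle : (Ideal.span {π}).comap (algebraMap d.sub B) ≤ p := by
      rw [← hP']
      exact Ideal.comap_mono ((Ideal.span_singleton_le_iff_mem _).2 hπP)
    by_contra hne
    have hlt := Ideal.height_add_one_le_of_lt_of_isPrime (lt_of_le_of_ne hle hne)
    rw [h1] at hlt
    have h0 : ((Ideal.span {π}).comap (algebraMap d.sub B)).height = 0 := by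
      by_contra h
      have h3 : 1 ≤ ((Ideal.span {π}).comap (algebraMap d.sub B)).height :=
        Order.one_le_iff_ne_zero.2 h
      have h4 : (1 : ℕ∞) + 1 ≤ 1 := le_trans (by gcongr) hlt
      norm_num at h4
    rw [Ideal.height_eq_zero_iff_eq_bot] at h0
    have h5 : π2 ∈ (Ideal.span {π}).comap (algebraMap d.sub B) :=
      Ideal.mul_mem_left (Ideal.span {π}) π (Ideal.subset_span rfl)
    rw [h0] at h5
    exact hπ2 h5
  have hπK : algebraMap B K π ≠ 0 := by simpa using hπ.ne_zero
  obtain ⟨b, hb⟩ := hs (algebraMap B K π)⁻¹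
  have hD2 : d.D (π * π) = 0 := by
    rw [d.mul]; linear_combination (algebraMap B K π * d.D π) * h2
  let n : d.sub := ⟨π * π * b, π, by
    rw [d.mul, hD2, hb, map_mul]
    field_simp
    ring⟩
  have hπF : algebraMap d.sub (FractionRing d.sub) π2 ≠ 0 := by simpa using hπ2
  refine ⟨algebraMap _ _ n / algebraMap _ _ π2, ?_, ?_⟩
  · refine ⟨Polynomial.X ^ 2 - Polynomial.C ⟨b * b, d.sq_mem h2 b⟩,
      Polynomial.monic_X_pow_sub_C _ (by norm_num), ?_⟩
    rw [Polynomial.eval₂_sub, Polynomial.eval₂_X_pow, Polynomial.eval₂_C, div_pow, sub_eq_zero,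
      div_eq_iff (pow_ne_zero _ hπF), ← map_pow, ← map_pow, ← map_mul]
    congr 1
    apply Subtype.ext
    simp only [n, π2, SubmonoidClass.coe_pow, Subring.coe_mul]
    ring
  · intro r
    have key : ∀ s : d.sub, algebraMap d.sub (FractionRing d.sub) s =
        r • (algebraMap _ _ n / algebraMap _ _ π2) ↔ (s : B) = r * b := by
      intro s
      rw [Algebra.smul_def, ← mul_div_assoc, eq_div_iff hπF, ← map_mul, ← map_mul,
        (IsFractionRing.injective d.sub (FractionRing d.sub)).eq_iff, Subtype.ext_iff]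
      simp only [n, π2, Subring.coe_mul]
      constructor
      · intro h
        apply mul_left_cancel₀ (mul_ne_zero hπ.ne_zero hπ.ne_zero)
        linear_combination h
      · intro h
        rw [h]; ring
    simp only [key]
    rw [← hq, Ideal.mem_comap, Ideal.mem_span_singleton']
    constructor
    · rintro ⟨u, hu⟩
      have hu' : u * π = r := hu
      refine ⟨⟨r * b, u + b * d.dd r, ?_⟩, rfl⟩
      have e : algebraMap B K r = algebraMap B K u * algebraMap B K π := by rw [← hu', map_mul]
      rw [d.mul, hb, map_add, map_mul, dd_spec, e]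
      field_simp
    · rintro ⟨s, hs⟩
      refine ⟨d.dd s - b * d.dd r, IsFractionRing.injective B K ?_⟩
      rw [map_mul, map_sub, map_mul, dd_spec, dd_spec, hs, d.mul, hb]
      change _ = algebraMap B K r
      field_simp
      ring

end Der

end Pool.Agent.H.MP_b58525_ag
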