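import Pool.Agent.H.MP_b58525_ag.Basic


namespace Pool.Agent.H.MP_b58525_ag

open MvPolynomial Cardinal

/-- polynomial ring in countably many variables over the field with two elements -/
abbrev A0 : Type := MvPolynomial ℕ (ZMod 2)

/-- the base field -/
abbrev k0 : Type := FractionRing A0

/-- the polynomial ring -/
abbrev B0 (n : ℕ) : Type := MvPolynomial (Fin n) k0

/-- its fraction field -/
abbrev K0 (n : ℕ) : Type := FractionRing (B0 n)

lemma countable (n : ℕ) : Countable (K0 n) := by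
  rw [← Cardinal.mk_le_aleph0_iff, Cardinal.mk_fractionRing]
  refine MvPolynomial.cardinalMk_le_max.trans (sup_le (sup_le ?_ ?_) le_rfl)
  · rw [Cardinal.mk_fractionRing]
    refine MvPolynomial.cardinalMk_le_max.trans (sup_le (sup_le ?_ ?_) le_rfl)
    · exact Cardinal.mk_le_aleph0
    · exact Cardinal.mk_le_aleph0
  · exact Cardinal.mk_le_aleph0

lemma exists_der {A k K σ : Type*} [CommRing A] [IsDomain A] [Field k] [Algebra A k]
    [IsFractionRing A k] [Field K] [Algebra (MvPolynomial σ k) K]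
    [IsFractionRing (MvPolynomial σ k) K] (φ0 : A →+* TrivSqZeroExt K K)
    (h0 : ∀ a, (φ0 a).fst = algebraMap (MvPolynomial σ k) K (C (algebraMap A k a))) :
    ∃ d : Der (MvPolynomial σ k) K, ∀ a, d.D (C (algebraMap A k a)) = (φ0 a).snd := by
  have hu : ∀ y : nonZeroDivisors A, IsUnit (φ0 y) := by
    intro y
    rw [TrivSqZeroExt.isUnit_iff_isUnit_fst, h0]
    refine ((IsLocalization.map_units k y).map C).map _
  let φ1 : k →+* TrivSqZeroExt K K := IsLocalization.lift hu
  have h1 : (TrivSqZeroExt.fstHom K K K).toRingHom.comp φ1 =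
      (algebraMap (MvPolynomial σ k) K).comp C := by
    refine IsLocalization.ringHom_ext (nonZeroDivisors A) ?_
    ext a
    simp [φ1, h0]
  let Φ : MvPolynomial σ k →+* TrivSqZeroExt K K :=
    eval₂Hom φ1 (fun j => TrivSqZeroExt.inl (algebraMap (MvPolynomial σ k) K (X j)))
  have h2 : (TrivSqZeroExt.fstHom K K K).toRingHom.comp Φ = algebraMap (MvPolynomial σ k) K := by
    refine MvPolynomial.ringHom_ext (fun a => ?_) (fun j => ?_)
    · have := RingHom.congr_fun h1 a
      simpa [Φ] using this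
    · simp [Φ]
  have h3 : ∀ b, (Φ b).fst = algebraMap (MvPolynomial σ k) K b := fun b => RingHom.congr_fun h2 b
  refine ⟨⟨⟨⟨fun b => (Φ b).snd, by simp⟩, by simp⟩, ?_⟩, ?_⟩
  · intro a b
    simp [TrivSqZeroExt.snd_mul, h3]
    ring
  · intro a
    simp [Φ, φ1]

lemma exists_surj (n : ℕ) : ∃ d : Der (B0 n) (K0 n), Function.Surjective d.D := by
  have := countable n
  obtain ⟨e, he⟩ := exists_surjective_nat (K0 n)
  have hchar : CharP (K0 n) 2 := inferInstance
  have h2 : CharP (TrivSqZeroExt (K0 n) (K0 n)) 2 :=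
    charP_of_injective_algebraMap (R := K0 n) (TrivSqZeroExt.inl_injective) 2
  let φ0 : A0 →+* TrivSqZeroExt (K0 n) (K0 n) :=
    eval₂Hom (ZMod.castHom (dvd_refl 2) _)
      (fun i => TrivSqZeroExt.inl (algebraMap (B0 n) (K0 n) (C (algebraMap A0 k0 (X i)))) +
        TrivSqZeroExt.inr (e i))
  have h0 : (TrivSqZeroExt.fstHom (K0 n) (K0 n) (K0 n)).toRingHom.comp φ0 =
      ((algebraMap (B0 n) (K0 n)).comp C).comp (algebraMap A0 k0) := by
    refine MvPolynomial.ringHom_ext' (Subsingleton.elim _ _) (fun j => ?_)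
    simp [φ0]
  obtain ⟨d, hd⟩ := exists_der (k := k0) (σ := Fin n) φ0 (fun a => RingHom.congr_fun h0 a)
  refine ⟨d, fun y => ?_⟩
  obtain ⟨i, rfl⟩ := he y
  refine ⟨_, (hd (X i)).trans ?_⟩
  simp [φ0]

theorem main (n : ℕ) : ∃ (R : Type) (_ : CommRing R) (_ : IsDomain R), IsNoetherianRing R ∧
    ringKrullDim R = n ∧ ∀ p : Ideal R, p.IsPrime → p.height = 1 →
      ∃ x : FractionRing R, IsIntegral R x ∧
        ∀ r : R, r ∈ p ↔ ∃ s : R, algebraMap R (FractionRing R) s = r • x := by
  obtain ⟨d, hd⟩ := exists_surj n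
  have h2 : (2 : K0 n) = 0 := by
    have hchar : CharP (K0 n) 2 := inferInstance
    exact CharP.cast_eq_zero (K0 n) 2
  refine ⟨d.sub, inferInstance, inferInstance, d.noeth hd, ?_, fun p hp h1 => d.assoc h2 hd p h1⟩
  rw [d.dim h2, MvPolynomial.ringKrullDim_of_isNoetherianRing, ringKrullDim_eq_zero_of_field]
  simp

end Pool.Agent.H.MP_b58525_ag
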